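import Pool.Agent.N89.BD.Stm
import Pool.Agent.W605.FK.Kill
import Pool.Agent.H35R6.DC_CNT

/-!
# BD/CRD: a lower bound for the number of points over `𝔽_p` and `𝔽_(p²)` (for helper89)
-/

set_option autoImplicit false
set_option linter.unusedSectionVars false

namespace Pool.Agent.N721.BD

open WeierstrassCurve Pool.Agent.H901R3.MS Pool.Agent.W605.FK

theorem fin_EP (a b : ℤ) (F : Type) [Field F] [Finite F] : Finite (EP a b F) := by
  have : Finite (WithZero {xy : F × F //
    (WeierstrassCurve.baseChange (WZ a b) F).toAffine.Nonsingular xy.1 xy.2}) :=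
    inferInstanceAs (Finite (Option _))
  exact Finite.of_equiv _ (WeierstrassCurve.Affine.nonsingularPointEquiv _).symm

section

variable {p : ℕ} [Fact p.Prime] {k : Type} [Field k] [Fintype k] [CharP k p] [DecidableEq k]

theorem card_EP {a b : ℤ} (hp : 2 < p) (hd : ¬ (p : ℤ) ∣ 4 * a ^ 3 + 27 * b ^ 2)
    (hcard : Nat.card {z : ZMod p × ZMod p // z.2 ^ 2 = z.1 ^ 3 + a * z.1 + b} = p) :
    Nat.card (EP a b (ZMod p)) = p + 1 := by
  have hD : Disc (a : ZMod p) (b : ZMod p) := disc_of hp hd (ZMod p)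
  rw [Nat.card_congr (WeierstrassCurve.Affine.nonsingularPointEquiv _)]
  have h2 : Nat.card (WithZero {xy : ZMod p × ZMod p //
      (WeierstrassCurve.baseChange (WZ a b) (ZMod p)).toAffine.Nonsingular xy.1 xy.2}) =
      Nat.card {xy : ZMod p × ZMod p //
      (WeierstrassCurve.baseChange (WZ a b) (ZMod p)).toAffine.Nonsingular xy.1 xy.2} + 1 :=
    Finite.card_option
  rw [h2]
  congr 1
  refine Eq.trans ?_ hcard
  apply Nat.card_congr
  exact Equiv.subtypeEquivRight (fun z => ns hD)

theorem card_minus {a b : ℤ} (hp : 2 < p) (hk : Fintype.card k = p ^ 2)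
    (hd : ¬ (p : ℤ) ∣ 4 * a ^ 3 + 27 * b ^ 2)
    (hcard : Nat.card {z : ZMod p × ZMod p // z.2 ^ 2 = z.1 ^ 3 + a * z.1 + b} = p)
    (ι : ZMod p →+* k) : Nat.card {P : EP a b k // fro p k a b P = -P} = p + 1 := by
  have hD : Disc (a : k) (b : k) := disc_of hp hd k
  have p0 : fro p k a b (Affine.Point.zero) = -Affine.Point.zero := rfl
  rw [Nat.card_congr (Affine.nonsingularPointEquivSubtype
    (p := fun P : EP a b k => fro p k a b P = -P) p0)]
  have h2 : Nat.card (WithZero {xy : k × k //
      ∃ h : (WeierstrassCurve.baseChange (WZ a b) k).toAffine.Nonsingular xy.1 xy.2,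
        fro p k a b (Affine.Point.some _ _ h) = -Affine.Point.some _ _ h}) =
      Nat.card {xy : k × k //
      ∃ h : (WeierstrassCurve.baseChange (WZ a b) k).toAffine.Nonsingular xy.1 xy.2,
        fro p k a b (Affine.Point.some _ _ h) = -Affine.Point.some _ _ h} + 1 :=
    Finite.card_option
  refine h2.trans ?_
  congr 1
  refine Eq.trans ?_ (count_minus hp hk ι (fun x => x ^ 3 + a * x + b) hcard)
  symm
  have key : ∀ x y : k, (∃ h : (WeierstrassCurve.baseChange (WZ a b) k).toAffine.Nonsingular x y,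
        fro p k a b (Affine.Point.some _ _ h) = -Affine.Point.some _ _ h) ↔
        (y ^ 2 = x ^ 3 + a * x + b ∧ x ^ p = x ∧ y ^ p = -y) := by
    intro x y
    constructor
    · rintro ⟨h, e⟩
      obtain ⟨h', e'⟩ := fro_some (p := p) h
      rw [e', Affine.Point.neg_some] at e
      obtain ⟨e3, e4⟩ := Affine.Point.some.inj e
      rw [neg_base] at e4
      exact ⟨(ns hD).mp h, e3, e4⟩
    · rintro ⟨h1, h2, h3⟩
      have h : (WeierstrassCurve.baseChange (WZ a b) k).toAffine.Nonsingular x y := (ns hD).mpr h1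
      refine ⟨h, ?_⟩
      obtain ⟨h', e'⟩ := fro_some (p := p) h
      rw [e', Affine.Point.neg_some]
      have h4 : y ^ p = (WeierstrassCurve.baseChange (WZ a b) k).toAffine.negY x y := by
        rw [neg_base, h3]
      congr 1
  refine Nat.card_congr (Equiv.ofBijective
    (fun z : {z : ZMod p × k // z.2 ^ 2 = ι (z.1 ^ 3 + a * z.1 + b) ∧ z.2 ^ p = -z.2} =>
      ⟨(ι z.1.1, z.1.2), (key _ _).mpr ⟨by have := z.2.1; simpa using this, pow_of ι _, z.2.2⟩⟩)
    ⟨?_, ?_⟩)
  · rintro ⟨⟨x, y⟩, h1⟩ ⟨⟨x', y'⟩, h2⟩ h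
    simp only [Subtype.mk.injEq, Prod.mk.injEq] at h
    simp only [Subtype.mk.injEq, Prod.mk.injEq]
    exact ⟨ι.injective h.1, h.2⟩
  · rintro ⟨⟨x, y⟩, h⟩
    obtain ⟨h1, h2, h3⟩ := (key x y).mp h
    obtain ⟨x0, rfl⟩ := exists_of_pow ι h2
    exact ⟨⟨(x0, y), by simpa using h1, h3⟩, rfl⟩

/-- The image of the points over `𝔽_p`. -/
noncomputable def inc (ι : ZMod p →+* k) (a b : ℤ) : EP a b (ZMod p) →+ EP a b k :=
  Affine.Point.map (W' := WZ a b) (S := ℤ) ι.toIntAlgHom

theorem inc_inj (ι : ZMod p →+* k) (a b : ℤ) : Function.Injective (inc ι a b) :=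
  Affine.Point.map_injective _

theorem fro_inc (ι : ZMod p →+* k) (a b : ℤ) (P : EP a b (ZMod p)) :
    fro p k a b (inc ι a b P) = inc ι a b P := by
  rcases P with _ | ⟨x, y, h⟩
  · rfl
  · obtain ⟨h1, e1⟩ : ∃ h', inc ι a b (Affine.Point.some x y h) =
      Affine.Point.some (ι x) (ι y) h' := ⟨_, rfl⟩
    rw [e1]
    obtain ⟨h2, e2⟩ := fro_some (p := p) h1
    rw [e2]
    have e3 := pow_of ι x
    have e4 := pow_of ι y
    congr 1

/-- The points of order two. -/
theorem card_two {a b : ℤ} (hp : 2 < p) (hd : ¬ (p : ℤ) ∣ 4 * a ^ 3 + 27 * b ^ 2) :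
    Nat.card {R : EP a b k // R + R = 0} ≤ 4 := by
  classical
  have hD : Disc (a : k) (b : k) := disc_of hp hd k
  let f : Polynomial k := Polynomial.X ^ 3 + Polynomial.C (a : k) * Polynomial.X +
    Polynomial.C (b : k)
  have hf0 : f.natDegree = 3 := by
    simp only [f]
    compute_degree!
  have hfne : f ≠ 0 := by
    intro h
    rw [h] at hf0
    simp at hf0
  have key : ∀ (x y : k)
      (h : (WeierstrassCurve.baseChange (WZ a b) k).toAffine.Nonsingular x y),
      (Affine.Point.some x y h : EP a b k) + Affine.Point.some x y h = 0 →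
      y = 0 ∧ x ∈ f.roots.toFinset := by
    intro x y h e
    have e1 : (Affine.Point.some x y h : EP a b k) = -Affine.Point.some x y h :=
      eq_neg_of_add_eq_zero_left e
    rw [Affine.Point.neg_some] at e1
    have e2 := (Affine.Point.some.inj e1).2
    rw [neg_base] at e2
    have hy : y = 0 := neg_eq_self_iff' hp e2
    refine ⟨hy, ?_⟩
    rw [Multiset.mem_toFinset, Polynomial.mem_roots hfne, Polynomial.IsRoot.def]
    have h3 := (ns hD).mp h
    rw [hy] at h3
    simp only [f, Polynomial.eval_add, Polynomial.eval_mul, Polynomial.eval_pow,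
      Polynomial.eval_X, Polynomial.eval_C]
    rw [← h3]
    ring
  let g : {R : EP a b k // R + R = 0} → Option {x // x ∈ f.roots.toFinset} := fun R =>
    match R with
    | ⟨Affine.Point.zero, _⟩ => none
    | ⟨Affine.Point.some x y h, e⟩ => some ⟨x, (key x y h e).2⟩
  have hg : Function.Injective g := by
    rintro ⟨R, hR⟩ ⟨R', hR'⟩ h
    rcases R with _ | ⟨x, y, h1⟩ <;> rcases R' with _ | ⟨x', y', h2⟩
    · rfl
    · exact absurd h (by simp [g])
    · exact absurd h (by simp [g])
    · have h3 : x = x' := by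
        have h4 := Option.some.inj h
        exact congrArg Subtype.val h4
      have h5 := (key x y h1 hR).1
      have h6 := (key x' y' h2 hR').1
      subst h3
      subst h5
      subst h6
      rfl
  have h1 := Nat.card_le_card_of_injective g hg
  refine h1.trans ?_
  rw [Finite.card_option, Nat.card_eq_fintype_card, Fintype.card_coe]
  have h2 := (Multiset.toFinset_card_le f.roots).trans (Polynomial.card_roots' f)
  omega

theorem sq_le {a b : ℤ} (hp : 2 < p) (hk : Fintype.card k = p ^ 2)
    (hd : ¬ (p : ℤ) ∣ 4 * a ^ 3 + 27 * b ^ 2)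
    (hcard : Nat.card {z : ZMod p × ZMod p // z.2 ^ 2 = z.1 ^ 3 + a * z.1 + b} = p)
    (ι : ZMod p →+* k) : (p + 1) ^ 2 ≤ 4 * Nat.card (EP a b k) := by
  classical
  have hfin : Finite (EP a b k) := fin_EP a b k
  have hfin1 : Finite (EP a b (ZMod p)) := fin_EP a b (ZMod p)
  let _ : Fintype (EP a b k) := Fintype.ofFinite _
  let _ : Fintype (EP a b (ZMod p)) := Fintype.ofFinite _
  let _ : Fintype {P : EP a b k // fro p k a b P = -P} := Fintype.ofFinite _
  let _ : Fintype {R : EP a b k // R + R = 0} := Fintype.ofFinite _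
  have c1 := card_EP hp hd hcard
  have c2 := card_minus hp hk hd hcard ι
  have c3 := card_two (k := k) hp hd
  rw [Nat.card_eq_fintype_card] at c1 c2 c3
  let f : EP a b (ZMod p) × {P : EP a b k // fro p k a b P = -P} → EP a b k := fun z =>
    inc ι a b z.1 + z.2.1
  have h1 : (Finset.univ : Finset (EP a b (ZMod p) × {P : EP a b k // fro p k a b P = -P})).card ≤
      4 * (Finset.univ.image f).card := by
    refine Finset.card_le_mul_card_image _ 4 fun P _ => ?_
    by_cases hne : (Finset.univ.filter fun z => f z = P).Nonempty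
    · obtain ⟨z0, hz0⟩ := hne
      rw [Finset.mem_filter] at hz0
      have hz1 : f z0 = P := hz0.2
      have hdd : ∀ z, f z = P → (inc ι a b z.1 - inc ι a b z0.1) +
          (inc ι a b z.1 - inc ι a b z0.1) = 0 := by
        intro z hz
        have e1 : inc ι a b z.1 + z.2.1 = inc ι a b z0.1 + z0.2.1 := hz.trans hz1.symm
        have e2 := congrArg (fro p k a b) e1
        rw [map_add, map_add, fro_inc, fro_inc, z.2.2, z0.2.2] at e2
        have e3 : (inc ι a b z.1 - inc ι a b z0.1) + (inc ι a b z.1 - inc ι a b z0.1) =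
            (inc ι a b z.1 + z.2.1 - (inc ι a b z0.1 + z0.2.1)) +
            (inc ι a b z.1 + -z.2.1 - (inc ι a b z0.1 + -z0.2.1)) := by abel
        rw [e3, e1, e2, sub_self, sub_self, add_zero]
      have h2 : (Finset.univ.filter fun z => f z = P).card ≤
          Fintype.card {R : EP a b k // R + R = 0} := by
        rw [← Fintype.card_coe]
        refine Fintype.card_le_of_injective
          (fun z => ⟨inc ι a b z.1.1 - inc ι a b z0.1, hdd z.1 (Finset.mem_filter.1 z.2).2⟩) ?_
        rintro ⟨⟨P1, Q1⟩, hz⟩ ⟨⟨P2, Q2⟩, hz'⟩ h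
        have e1 : inc ι a b P1 - inc ι a b z0.1 = inc ι a b P2 - inc ι a b z0.1 :=
          congrArg Subtype.val h
        have e2 : inc ι a b P1 = inc ι a b P2 := sub_left_inj.1 e1
        have e3 := inc_inj ι a b e2
        have e4 : inc ι a b P1 + Q1.1 = inc ι a b P2 + Q2.1 :=
          (Finset.mem_filter.1 hz).2.trans (Finset.mem_filter.1 hz').2.symm
        rw [e2] at e4
        have e5 : Q1 = Q2 := Subtype.ext (add_left_cancel e4)
        subst e3
        subst e5
        rfl
      exact h2.trans c3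
    · rw [Finset.not_nonempty_iff_eq_empty] at hne
      rw [hne, Finset.card_empty]
      norm_num
  rw [Finset.card_univ, Fintype.card_prod, c1, c2] at h1
  have h2 : (Finset.univ.image f).card ≤ Nat.card (EP a b k) := by
    rw [Nat.card_eq_fintype_card]
    exact Finset.card_le_univ _
  nlinarith

end

theorem main : Pool.Agent.N89.BD.S_CRD := by
  intro p a b hpp h12 hab hd k _ _ hk
  classical
  have : Fact p.Prime := ⟨hpp⟩
  have hcard := Pool.Agent.H35R6.DCCNT.cnt p a b hpp h12 hab
  have hp : 2 < p := by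
    have h2 := hpp.two_le
    have h3 := Nat.le_of_dvd (by omega) h12
    omega
  have hchar : CharP k p := by
    rcases hk with hk | hk
    · exact charP_of_card_eq_prime hk
    · exact charP_of_card_eq_prime_pow hk
  let ι : ZMod p →+* k := ZMod.castHom (dvd_refl p) k
  have hfin : Finite (EP a b k) := fin_EP a b k
  have hmain : Fintype.card k ≤ 8 * Nat.card (EP a b k) := by
    rcases hk with hk | hk
    · have h1 := Nat.card_le_card_of_injective _ (inc_inj ι a b)
      rw [card_EP hp hd hcard] at h1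
      rw [hk]
      omega
    · have h1 := sq_le hp hk hd hcard ι
      rw [hk]
      nlinarith
  unfold Pt
  rw [base_eq]
  exact hmain

end Pool.Agent.N721.BD
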